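import Pool.Agent.Y940.BogK.Param

set_option autoImplicit false

/-!
# The constant width polynomial Bogolyubov statement is false for `kA - kA`, for every `k`

Bohr sets of constant width and of dimension `O(log (1/α))` need not be contained in `kA - kA`,
whatever the number `k` of summands; even dimension `κ log (1/α) log log (1/α)` is not enough, and
`k` may grow like a power of `log (1/α)`. The case `k = 2` is Q1 of MP_3c7b25_co.

Idea of the proof (an extension of the starting result `BogolyubovFails`, which treats `2A - 2A`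
and dimension `C log (1/α)`). Write integers in base `4kH + 1` with `d` digits. The set `A`
consists of the integers whose digit vector lies (up to a shift) in `[-H, H]^d` and satisfies
`|⟨u_j, y⟩| ≤ T` for polynomially many random sign vectors `u_j`. Its density is at least
`(4k)^(-d)`. A Bohr set of dimension `m` and constant width in `kA - kA` gives a set of digit
vectors in `[-2kH, 2kH]^d` of density `exp(-O(m))`, and by the Sauer-Shelah lemma half of all sign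
vectors `u` have `|⟨u, z⟩| > 2kT` for some `z` in it unless `m ≥ c d log d`.
-/

namespace Pool.Agent.Results.MP_3c7b25_co.ManySummands

/-- The Bohr set `B(Θ, ρ; N) = {n ∈ ℤ : |n| ≤ N, ‖nθ‖ ≤ ρ for all θ ∈ Θ}`, where `Θ` is a finite
subset of `ℝ/ℤ` and the norm on `ℝ/ℤ` is the distance to the nearest integer. -/
def bohr (Θ : Finset UnitAddCircle) (ρ : ℝ) (N : ℕ) : Set ℤ :=
  {n | |n| ≤ (N : ℤ) ∧ ∀ θ ∈ Θ, ‖n • θ‖ ≤ ρ}

/-- The set `2A - 2A`. -/
def twoAMinusTwoA (A : Finset ℤ) : Set ℤ :=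
  {n | ∃ a₁ ∈ A, ∃ a₂ ∈ A, ∃ a₃ ∈ A, ∃ a₄ ∈ A, n = a₁ + a₂ - a₃ - a₄}

/-- The set `kA - kA` of the differences of two sums of `k` elements of `A`. -/
def kAMinusKA (k : ℕ) (A : Finset ℤ) : Set ℤ :=
  {n | ∃ a b : Fin k → ℤ, (∀ i, a i ∈ A) ∧ (∀ i, b i ∈ A) ∧ n = ∑ i, a i - ∑ i, b i}

/-- The density `|A| / N` of a set `A ⊆ [N]`. -/
noncomputable def density (A : Finset ℤ) (N : ℕ) : ℝ := (A.card : ℝ) / N

theorem two_sub (A : Finset ℤ) : twoAMinusTwoA A ⊆ kAMinusKA 2 A := by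
  rintro n ⟨a₁, h₁, a₂, h₂, a₃, h₃, a₄, h₄, rfl⟩
  refine ⟨![a₁, a₂], ![a₃, a₄], ?_, ?_, ?_⟩
  · intro i
    fin_cases i
    · exact h₁
    · exact h₂
  · intro i
    fin_cases i
    · exact h₃
    · exact h₄
  · simp [Fin.sum_univ_two]
    ring

theorem k_succ (A : Finset ℤ) (hA : A.Nonempty) (k : ℕ) :
    kAMinusKA k A ⊆ kAMinusKA (k + 1) A := by
  obtain ⟨a0, ha0⟩ := hA
  rintro n ⟨a, b, ha, hb, rfl⟩
  refine ⟨Fin.cons a0 a, Fin.cons a0 b, ?_, ?_, ?_⟩
  · intro i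
    refine Fin.cases ?_ (fun i => ?_) i
    · simpa using ha0
    · simpa using ha i
  · intro i
    refine Fin.cases ?_ (fun i => ?_) i
    · simpa using ha0
    · simpa using hb i
  · rw [Fin.sum_univ_succ, Fin.sum_univ_succ]
    simp

theorem k_mono (A : Finset ℤ) (hA : A.Nonempty) {k l : ℕ} (h : k ≤ l) :
    kAMinusKA k A ⊆ kAMinusKA l A := by
  induction l, h using Nat.le_induction with
  | base => exact subset_rfl
  | succ l _ ih => exact ih.trans (k_succ A hA l)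

theorem main_log (k t : ℕ) (hk : 1 ≤ k) (hkt : 2 * k ≤ t) (ht : 200000 ≤ t) :
    ∃ (N : ℕ) (A : Finset ℤ), A ⊆ Finset.Icc 1 (N : ℤ) ∧ 0 < density A N ∧
      density A N ≤ (2 / 3) ^ (t ^ 4) ∧
      Real.log (1 / density A N) ≤ (t : ℝ) ^ 4 * Real.log (4 * k) ∧
      ∀ (Θ : Finset UnitAddCircle) (ρ : ℝ), 0 < ρ → ρ ≤ 1 / 2 →
        bohr Θ ρ N ⊆ kAMinusKA k A →
        (t : ℝ) ^ 4 * Real.log t ≤ (t : ℝ) ^ 4 * Real.log 32 +
          2 * Θ.card * Real.log ⌈2 / ρ⌉₊ := by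
  obtain ⟨A, hA1, hA2, hA3, hA4⟩ := Pool.Agent.Y940.BogK.main_t k t hk hkt ht
  set d : ℕ := t ^ 4 with hd
  have hd1 : 1 ≤ d := Nat.one_le_pow _ _ (by omega)
  set N : ℕ := (4 * k * t ^ 2 + 1) ^ d with hN
  have hNpos : 0 < N := by positivity
  have hNpos' : (0 : ℝ) < N := by exact_mod_cast hNpos
  have hApos : 0 < A.card := by
    have : 0 < (2 * t ^ 2 + 1) ^ d := by positivity
    omega
  have hApos' : (0 : ℝ) < A.card := by exact_mod_cast hApos
  have ht1 : 1 ≤ t ^ 2 := Nat.one_le_pow _ _ (by omega)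
  have hkr : (1 : ℝ) ≤ k := by exact_mod_cast hk
  have htr : (200000 : ℝ) ≤ t := by exact_mod_cast ht
  have hN8 : N ≤ (4 * k) ^ d * A.card := by
    have h1 : N ≤ (2 * k) ^ d * (2 * t ^ 2 + 1) ^ d := by
      rw [← mul_pow]
      refine Nat.pow_le_pow_left ?_ d
      nlinarith
    have h2 : (2 * k) ^ d * (2 * t ^ 2 + 1) ^ d ≤ (2 * k) ^ d * (2 * A.card) :=
      Nat.mul_le_mul_left _ hA2
    have h3 : (2 * k) ^ d * 2 ≤ (4 * k) ^ d := by
      have h4 : 2 ≤ 2 ^ d := Nat.le_self_pow (by omega) 2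
      calc (2 * k) ^ d * 2 ≤ (2 * k) ^ d * 2 ^ d := Nat.mul_le_mul_left _ h4
        _ = (4 * k) ^ d := by rw [← mul_pow]; congr 1; ring
    calc N ≤ (2 * k) ^ d * (2 * A.card) := h1.trans h2
      _ = (2 * k) ^ d * 2 * A.card := by ring
      _ ≤ (4 * k) ^ d * A.card := Nat.mul_le_mul_right _ h3
  refine ⟨N, A, hA1, div_pos hApos' hNpos', ?_, ?_, ?_⟩
  · unfold density
    rw [div_le_iff₀ hNpos']
    have h1 : (A.card : ℝ) ≤ (2 * (t : ℝ) ^ 2 + 1) ^ d := by exact_mod_cast hA3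
    refine h1.trans ?_
    have h2 : (N : ℝ) = (4 * (k : ℝ) * (t : ℝ) ^ 2 + 1) ^ d := by
      rw [hN]; push_cast; ring
    rw [h2, ← mul_pow]
    refine pow_le_pow_left₀ (by positivity) ?_ d
    have h3 : (1 : ℝ) ≤ (t : ℝ) ^ 2 := by exact_mod_cast ht1
    nlinarith
  · have h1 : 1 / density A N = N / A.card := by
      unfold density
      field_simp
    rw [h1]
    have h2 : (N : ℝ) / A.card ≤ (4 * (k : ℝ)) ^ d := by
      rw [div_le_iff₀ hApos']
      exact_mod_cast hN8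
    have h3 : Real.log ((N : ℝ) / A.card) ≤ Real.log ((4 * (k : ℝ)) ^ d) :=
      Real.log_le_log (div_pos hNpos' hApos') h2
    refine h3.trans (le_of_eq ?_)
    rw [Real.log_pow, hd]
    push_cast
    ring
  · intro Θ ρ hρ0 hρ1 hsub
    have h1 := hA4 Θ ρ hρ0 hρ1 hsub
    have h2 : (t : ℝ) ^ d ≤ 32 ^ d * (⌈2 / ρ⌉₊ : ℝ) ^ (2 * Θ.card) := by exact_mod_cast h1
    have h3 : (0 : ℝ) < (⌈2 / ρ⌉₊ : ℝ) := by
      have : 0 < ⌈2 / ρ⌉₊ := Nat.ceil_pos.2 (by positivity)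
      exact_mod_cast this
    have h4 := Real.log_le_log (by positivity) h2
    rw [Real.log_mul (by positivity) (by positivity), Real.log_pow, Real.log_pow,
      Real.log_pow] at h4
    rw [hd] at h4
    push_cast at h4
    linarith

/-- the first part -/
theorem part_one (k : ℕ) (hk : 1 ≤ k) (c : ℝ) (hc : 0 < c) : ∃ κ : ℝ, 0 < κ ∧
    ∀ δ : ℝ, 0 < δ → ∃ (N : ℕ) (A : Finset ℤ), A ⊆ Finset.Icc 1 (N : ℤ) ∧
      0 < density A N ∧ density A N ≤ 1 / 2 ∧ density A N < δ ∧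
      ∀ (Θ : Finset UnitAddCircle) (ρ : ℝ), c ≤ ρ → ρ ≤ 1 / 2 →
        (Θ.card : ℝ) ≤ κ * (Real.log (1 / density A N) * Real.log (Real.log (1 / density A N))) →
          ¬ bohr Θ ρ N ⊆ kAMinusKA k A := by
  obtain ⟨Q, hQ⟩ : ∃ Q : ℕ, Q = ⌈2 / c⌉₊ + 2 := ⟨_, rfl⟩
  have hQ2 : (2 : ℝ) ≤ Q := by
    have : 2 ≤ Q := by omega
    exact_mod_cast this
  have hlQ : 0 < Real.log Q := Real.log_pos (by linarith)
  have hkr : (1 : ℝ) ≤ k := by exact_mod_cast hk
  obtain ⟨a, ha⟩ : ∃ a : ℝ, a = Real.log (4 * k) := ⟨_, rfl⟩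
  have ha0 : 0 < a := by rw [ha]; exact Real.log_pos (by linarith)
  refine ⟨1 / (24 * a * Real.log Q), by positivity, fun δ hδ => ?_⟩
  obtain ⟨n0, hn0⟩ := exists_pow_lt_of_lt_one (show 0 < min δ (1 / 2) by positivity)
    (show (2 / 3 : ℝ) < 1 by norm_num)
  obtain ⟨t, ht⟩ : ∃ t : ℕ, t = 200000 + 2 * k + n0 + ⌈a⌉₊ := ⟨_, rfl⟩
  obtain ⟨N, A, h1, h2, h3, h4, h5⟩ := main_log k t hk (by omega) (by omega)
  have htr : (200000 : ℝ) ≤ t := by
    have : 200000 ≤ t := by omega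
    exact_mod_cast this
  have hat : a ≤ t := by
    have h6 : a ≤ (⌈a⌉₊ : ℝ) := Nat.le_ceil a
    have h7 : (⌈a⌉₊ : ℝ) ≤ t := by
      have : ⌈a⌉₊ ≤ t := by omega
      exact_mod_cast this
    linarith
  have hn0t : n0 ≤ t ^ 4 := by
    have : t ≤ t ^ 4 := Nat.le_self_pow (by norm_num) t
    omega
  have hsmall : density A N < min δ (1 / 2) := by
    refine lt_of_le_of_lt (h3.trans ?_) hn0
    exact pow_le_pow_of_le_one (by norm_num) (by norm_num) hn0t
  refine ⟨N, A, h1, h2, (hsmall.le.trans (min_le_right _ _)), lt_of_lt_of_le hsmall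
    (min_le_left _ _), ?_⟩
  intro Θ ρ hcρ hρ hcard hsub
  have hρ0 : 0 < ρ := lt_of_lt_of_le hc hcρ
  have h6 := h5 Θ ρ hρ0 hρ hsub
  obtain ⟨L, hL⟩ : ∃ L : ℝ, L = Real.log (1 / density A N) := ⟨_, rfl⟩
  rw [← hL] at hcard h4
  have hL0 : 0 < L := by
    rw [hL]
    refine Real.log_pos ?_
    rw [lt_div_iff₀ h2]
    have := hsmall.trans_le (min_le_right _ _)
    linarith
  rw [← ha] at h4
  have hlt : 0 < Real.log t := Real.log_pos (by linarith)
  have hlogL : Real.log L ≤ 5 * Real.log t := by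
    have h7 : L ≤ (t : ℝ) ^ 5 := by
      calc L ≤ (t : ℝ) ^ 4 * a := h4
        _ ≤ (t : ℝ) ^ 4 * t := mul_le_mul_of_nonneg_left hat (by positivity)
        _ = (t : ℝ) ^ 5 := by ring
    have h8 := Real.log_le_log hL0 h7
    rw [Real.log_pow] at h8
    exact_mod_cast h8
  have hqQ : Real.log ⌈2 / ρ⌉₊ ≤ Real.log Q := by
    refine Real.log_le_log ?_ ?_
    · have : 0 < ⌈2 / ρ⌉₊ := Nat.ceil_pos.2 (by positivity)
      exact_mod_cast this
    · have h7 : ⌈2 / ρ⌉₊ ≤ ⌈2 / c⌉₊ := Nat.ceil_mono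
        (div_le_div_of_nonneg_left (by norm_num) hc hcρ)
      have h8 : ⌈2 / ρ⌉₊ ≤ Q := by omega
      exact_mod_cast h8
  -- the number of frequencies
  have hm : (Θ.card : ℝ) ≤ 1 / (24 * a * Real.log Q) * ((t : ℝ) ^ 4 * a * (5 * Real.log t)) := by
    refine hcard.trans (mul_le_mul_of_nonneg_left ?_ (by positivity))
    calc L * Real.log L ≤ L * (5 * Real.log t) := mul_le_mul_of_nonneg_left hlogL hL0.le
      _ ≤ (t : ℝ) ^ 4 * a * (5 * Real.log t) := mul_le_mul_of_nonneg_right h4 (by positivity)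
  have hm' : 2 * (Θ.card : ℝ) * Real.log Q ≤ 5 / 12 * ((t : ℝ) ^ 4 * Real.log t) := by
    have h7 : 2 * (Θ.card : ℝ) * Real.log Q ≤
        2 * (1 / (24 * a * Real.log Q) * ((t : ℝ) ^ 4 * a * (5 * Real.log t))) * Real.log Q :=
      mul_le_mul_of_nonneg_right (mul_le_mul_of_nonneg_left hm (by norm_num)) hlQ.le
    refine h7.trans (le_of_eq ?_)
    field_simp
    ring
  have h32 : Real.log 32 ≤ 1 / 2 * Real.log t := by
    have h7 : Real.log ((32 : ℝ) ^ 2) ≤ Real.log t := Real.log_le_log (by norm_num) (by linarith)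
    rw [Real.log_pow] at h7
    push_cast at h7
    linarith
  have h9 : 2 * (Θ.card : ℝ) * Real.log ⌈2 / ρ⌉₊ ≤ 2 * (Θ.card : ℝ) * Real.log Q :=
    mul_le_mul_of_nonneg_left hqQ (by positivity)
  have ht4 : (0 : ℝ) < (t : ℝ) ^ 4 := by positivity
  have h10 : (t : ℝ) ^ 4 * Real.log 32 ≤ (t : ℝ) ^ 4 * (1 / 2 * Real.log t) :=
    mul_le_mul_of_nonneg_left h32 ht4.le
  have h11 : 0 < (t : ℝ) ^ 4 * Real.log t := mul_pos ht4 hlt
  linarith

/-- the second part -/
theorem part_two (c : ℝ) (hc : 0 < c) (C : ℝ) : ∃ η : ℝ, 0 < η ∧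
    ∀ δ : ℝ, 0 < δ → ∃ (N : ℕ) (A : Finset ℤ), A ⊆ Finset.Icc 1 (N : ℤ) ∧
      0 < density A N ∧ density A N ≤ 1 / 2 ∧ density A N < δ ∧
      ∀ k : ℕ, (k : ℝ) ≤ Real.log (1 / density A N) ^ η →
      ∀ (Θ : Finset UnitAddCircle) (ρ : ℝ), c ≤ ρ → ρ ≤ 1 / 2 →
        (Θ.card : ℝ) ≤ C * Real.log (1 / density A N) →
          ¬ bohr Θ ρ N ⊆ kAMinusKA k A := by
  obtain ⟨Q, hQ⟩ : ∃ Q : ℕ, Q = ⌈2 / c⌉₊ + 2 := ⟨_, rfl⟩
  have hQ2 : (2 : ℝ) ≤ Q := by
    have : 2 ≤ Q := by omega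
    exact_mod_cast this
  have hlQ : 0 < Real.log Q := Real.log_pos (by linarith)
  obtain ⟨p, hp⟩ : ∃ p : ℕ, p = ⌈4 * |C| * Real.log Q⌉₊ + 2 := ⟨_, rfl⟩
  have hpr : 4 * |C| * Real.log Q + 2 ≤ (p : ℝ) := by
    rw [hp]
    push_cast
    have := Nat.le_ceil (4 * |C| * Real.log Q)
    linarith
  have hη : (0 : ℝ) < 1 / (4 * p + 1) := by positivity
  refine ⟨1 / (4 * p + 1), hη, fun δ hδ => ?_⟩
  obtain ⟨n0, hn0⟩ := exists_pow_lt_of_lt_one (show 0 < min δ (1 / 2) by positivity)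
    (show (2 / 3 : ℝ) < 1 by norm_num)
  obtain ⟨s, hs⟩ : ∃ s : ℕ, s = 200000 + n0 := ⟨_, rfl⟩
  obtain ⟨t, ht⟩ : ∃ t : ℕ, t = s ^ p := ⟨_, rfl⟩
  have hst : s ^ 2 ≤ t := by rw [ht]; exact Nat.pow_le_pow_right (by omega) (by omega)
  have hst' : 2 * s ≤ t := by nlinarith
  have hst1 : s ≤ t := by omega
  obtain ⟨N, A, h1, h2, h3, h4, h5⟩ := main_log s t (by omega) hst' (by omega)
  have hsr : (200000 : ℝ) ≤ s := by
    have : 200000 ≤ s := by omega
    exact_mod_cast this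
  have htr : (t : ℝ) = (s : ℝ) ^ p := by rw [ht]; push_cast; ring
  have hn0t : n0 ≤ t ^ 4 := by
    have : t ≤ t ^ 4 := Nat.le_self_pow (by norm_num) t
    omega
  have hsmall : density A N < min δ (1 / 2) := by
    refine lt_of_le_of_lt (h3.trans ?_) hn0
    exact pow_le_pow_of_le_one (by norm_num) (by norm_num) hn0t
  refine ⟨N, A, h1, h2, (hsmall.le.trans (min_le_right _ _)), lt_of_lt_of_le hsmall
    (min_le_left _ _), ?_⟩
  intro k hkL Θ ρ hcρ hρ hcard hsub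
  have hρ0 : 0 < ρ := lt_of_lt_of_le hc hcρ
  obtain ⟨L, hL⟩ : ∃ L : ℝ, L = Real.log (1 / density A N) := ⟨_, rfl⟩
  rw [← hL] at hcard h4 hkL
  have hL0 : 0 < L := by
    rw [hL]
    refine Real.log_pos ?_
    rw [lt_div_iff₀ h2]
    have := hsmall.trans_le (min_le_right _ _)
    linarith
  have hls : 0 < Real.log s := Real.log_pos (by linarith)
  have ht4 : (0 : ℝ) < (t : ℝ) ^ 4 := by rw [htr]; positivity
  -- the logarithm of `4 s`
  have hl4 : Real.log (4 * s) ≤ 2 * Real.log s := by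
    have h7 : Real.log (4 * s) ≤ Real.log ((s : ℝ) ^ 2) :=
      Real.log_le_log (by positivity) (by nlinarith)
    rw [Real.log_pow] at h7
    exact_mod_cast h7
  have hl4' : Real.log (4 * s) ≤ s := by
    have h7 : Real.log s ≤ (s : ℝ) / 2 := by
      have h8 := Real.log_le_sub_one_of_pos (show (0 : ℝ) < s / 8 by positivity)
      rw [Real.log_div (by positivity) (by norm_num)] at h8
      have h9 : Real.log 8 ≤ 3 := by
        rw [show (8 : ℝ) = 2 ^ 3 by norm_num, Real.log_pow]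
        have := Real.log_two_lt_d9
        push_cast
        linarith
      linarith
    linarith
  have hL4 : L ≤ (s : ℝ) ^ (4 * p + 1) := by
    calc L ≤ (t : ℝ) ^ 4 * Real.log (4 * s) := h4
      _ ≤ (t : ℝ) ^ 4 * s := mul_le_mul_of_nonneg_left hl4' ht4.le
      _ = (s : ℝ) ^ (4 * p + 1) := by rw [htr]; ring
  -- at most `s` summands
  have hks : k ≤ s := by
    have h7 : (k : ℝ) ≤ s := by
      refine hkL.trans ?_
      calc L ^ (1 / (4 * (p : ℝ) + 1)) ≤ ((s : ℝ) ^ (4 * p + 1)) ^ (1 / (4 * (p : ℝ) + 1)) :=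
            Real.rpow_le_rpow hL0.le hL4 hη.le
        _ = s := by
            rw [← Real.rpow_natCast, ← Real.rpow_mul (by positivity)]
            have : (((4 * p + 1 : ℕ) : ℝ) * (1 / (4 * (p : ℝ) + 1))) = 1 := by
              push_cast
              field_simp
            rw [this, Real.rpow_one]
    exact_mod_cast h7
  have hAne : A.Nonempty := by
    rw [Finset.nonempty_iff_ne_empty]
    rintro rfl
    simp [density] at h2
  have h6 := h5 Θ ρ hρ0 hρ (hsub.trans (k_mono A hAne hks))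
  have hqQ : Real.log ⌈2 / ρ⌉₊ ≤ Real.log Q := by
    refine Real.log_le_log ?_ ?_
    · have : 0 < ⌈2 / ρ⌉₊ := Nat.ceil_pos.2 (by positivity)
      exact_mod_cast this
    · have h7 : ⌈2 / ρ⌉₊ ≤ ⌈2 / c⌉₊ := Nat.ceil_mono
        (div_le_div_of_nonneg_left (by norm_num) hc hcρ)
      have h8 : ⌈2 / ρ⌉₊ ≤ Q := by omega
      exact_mod_cast h8
  have hm : (Θ.card : ℝ) ≤ |C| * ((t : ℝ) ^ 4 * (2 * Real.log s)) := by
    calc (Θ.card : ℝ) ≤ C * L := hcard
      _ ≤ |C| * L := mul_le_mul_of_nonneg_right (le_abs_self C) hL0.le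
      _ ≤ |C| * ((t : ℝ) ^ 4 * (2 * Real.log s)) := by
          refine mul_le_mul_of_nonneg_left (h4.trans ?_) (abs_nonneg C)
          exact mul_le_mul_of_nonneg_left hl4 ht4.le
  have h9 : 2 * (Θ.card : ℝ) * Real.log ⌈2 / ρ⌉₊ ≤
      2 * (|C| * ((t : ℝ) ^ 4 * (2 * Real.log s))) * Real.log Q := by
    refine (mul_le_mul_of_nonneg_left hqQ (by positivity)).trans ?_
    exact mul_le_mul_of_nonneg_right (mul_le_mul_of_nonneg_left hm (by norm_num)) hlQ.le
  have hlt : Real.log t = p * Real.log s := by rw [htr, Real.log_pow]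
  have h32 : Real.log 32 < Real.log s := Real.log_lt_log (by norm_num) (by linarith)
  rw [hlt] at h6
  have h10 : (t : ℝ) ^ 4 * (p * Real.log s) ≤ (t : ℝ) ^ 4 * (Real.log 32 +
      4 * |C| * Real.log Q * Real.log s) := by
    linarith
  have h11 : p * Real.log s ≤ Real.log 32 + 4 * |C| * Real.log Q * Real.log s :=
    le_of_mul_le_mul_left h10 ht4
  have h12 : (4 * |C| * Real.log Q + 2) * Real.log s ≤ p * Real.log s :=
    mul_le_mul_of_nonneg_right hpr hls.le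
  linarith

/-- **Sums of many copies do not help.** (1) For every number `k ≥ 1` of summands and every width
`c > 0` there is `κ > 0` such that there are sets `A ⊆ [N]` of arbitrarily small density `α` for
which `kA - kA` contains no Bohr set of width at least `c` and dimension at most
`κ log (1/α) log log (1/α)`. (2) For all constants `c > 0` and `C` there is `η > 0` such that there
are sets `A ⊆ [N]` of arbitrarily small density `α` for which none of the sets `kA - kA`,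
`k ≤ (log (1/α)) ^ η`, contains a Bohr set of width at least `c` and dimension at most
`C log (1/α)`. (3) In particular the statement of Q1 on `2A - 2A` is false. -/
theorem result :
    (∀ k : ℕ, 1 ≤ k → ∀ c : ℝ, 0 < c → ∃ κ : ℝ, 0 < κ ∧ ∀ δ : ℝ, 0 < δ →
      ∃ (N : ℕ) (A : Finset ℤ), A ⊆ Finset.Icc 1 (N : ℤ) ∧
        0 < density A N ∧ density A N ≤ 1 / 2 ∧ density A N < δ ∧
        ∀ (Θ : Finset UnitAddCircle) (ρ : ℝ), c ≤ ρ → ρ ≤ 1 / 2 →
          (Θ.card : ℝ) ≤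
            κ * (Real.log (1 / density A N) * Real.log (Real.log (1 / density A N))) →
          ¬ bohr Θ ρ N ⊆ kAMinusKA k A) ∧
    (∀ c : ℝ, 0 < c → ∀ C : ℝ, ∃ η : ℝ, 0 < η ∧ ∀ δ : ℝ, 0 < δ →
      ∃ (N : ℕ) (A : Finset ℤ), A ⊆ Finset.Icc 1 (N : ℤ) ∧
        0 < density A N ∧ density A N ≤ 1 / 2 ∧ density A N < δ ∧
        ∀ k : ℕ, (k : ℝ) ≤ Real.log (1 / density A N) ^ η →
        ∀ (Θ : Finset UnitAddCircle) (ρ : ℝ), c ≤ ρ → ρ ≤ 1 / 2 →
          (Θ.card : ℝ) ≤ C * Real.log (1 / density A N) →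
          ¬ bohr Θ ρ N ⊆ kAMinusKA k A) ∧
    (∀ c : ℝ, 0 < c → ∀ C : ℝ, ∃ (N : ℕ) (A : Finset ℤ),
      A ⊆ Finset.Icc 1 (N : ℤ) ∧ 0 < density A N ∧ density A N ≤ 1 / 2 ∧
        ∀ (Θ : Finset UnitAddCircle) (ρ : ℝ), c ≤ ρ → ρ ≤ 1 / 2 →
          (Θ.card : ℝ) ≤ C * Real.log (1 / density A N) →
            ¬ bohr Θ ρ N ⊆ twoAMinusTwoA A) := by
  refine ⟨fun k hk c hc => part_one k hk c hc, fun c hc C => part_two c hc C, ?_⟩
  intro c hc C
  obtain ⟨κ, hκ, h⟩ := part_one 2 (by norm_num) c hc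
  obtain ⟨N, A, h1, h2, h3, h4, h5⟩ := h (Real.exp (-(Real.exp (|C| / κ)))) (Real.exp_pos _)
  refine ⟨N, A, h1, h2, h3, fun Θ ρ hcρ hρ hcard hsub => ?_⟩
  refine h5 Θ ρ hcρ hρ ?_ (hsub.trans (two_sub A))
  refine hcard.trans ?_
  have h6 : Real.exp (|C| / κ) < Real.log (1 / density A N) := by
    rw [one_div, Real.log_inv]
    have h7 := Real.log_lt_log h2 h4
    rw [Real.log_exp] at h7
    linarith
  have h7 : 0 < Real.log (1 / density A N) := (Real.exp_pos _).trans h6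
  have h8 : |C| / κ < Real.log (Real.log (1 / density A N)) := by
    have := Real.log_lt_log (Real.exp_pos _) h6
    rwa [Real.log_exp] at this
  have h9 : |C| < κ * Real.log (Real.log (1 / density A N)) := by
    rw [div_lt_iff₀ hκ] at h8
    linarith
  calc C * Real.log (1 / density A N) ≤ |C| * Real.log (1 / density A N) :=
        mul_le_mul_of_nonneg_right (le_abs_self C) h7.le
    _ ≤ (κ * Real.log (Real.log (1 / density A N))) * Real.log (1 / density A N) :=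
        mul_le_mul_of_nonneg_right h9.le h7.le
    _ = _ := by ring

end Pool.Agent.Results.MP_3c7b25_co.ManySummands
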